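import Pool.Agent.Helper64.LN.GoalsB

set_option autoImplicit false

/-! Project LN, packet CR2: ends on the same side of a hyperbolic axis are not separated. -/

open Topology Filter Set Metric UpperHalfPlane
open scoped MatrixGroups

namespace Pool.Agent.Helper13.LN

open Pool.Agent.Helper64.LN

/-! ### The equivariant extension of a path -/

/-- the extension of the path `c` from `c 0` to `F (c 0)` -/
theorem per_ext (F : ℍ ≃ₜ ℍ) (c : C(unitInterval, ℍ)) (hc : c 1 = F (c 0)) :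
    ∃ σ : C(ℝ, ℍ), (∀ t, σ (t + 1) = F (σ t)) ∧
      ∀ t, ∃ (n : ℤ) (s : unitInterval), (n : ℝ) ≤ t ∧ t < n + 1 ∧ σ t = (F ^ n) (c s) := by
  set c' : ℝ → ℍ := IccExtend zero_le_one c with hc'
  have hc'c : Continuous c' := c.continuous.Icc_extend'
  have h0 : c' 0 = c 0 := by
    rw [hc', IccExtend_left]
    rfl
  have h1 : c' 1 = c 1 := by
    rw [hc', IccExtend_right]
    rfl
  set f : ℝ → ℍ := fun t => (F ^ ⌊t⌋) (c' (t - ⌊t⌋)) with hf
  have key : ∀ (n : ℤ), ∀ t ∈ Icc (n : ℝ) (n + 1), f t = (F ^ n) (c' (t - n)) := by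
    intro n t ht
    rcases eq_or_lt_of_le ht.2 with h | h
    · have hfl : ⌊t⌋ = n + 1 := by
        rw [h]
        have : ((n : ℝ) + 1) = ((n + 1 : ℤ) : ℝ) := by push_cast; ring
        rw [this, Int.floor_intCast]
      simp only [hf]
      rw [hfl, h]
      have e1 : (n : ℝ) + 1 - ((n + 1 : ℤ) : ℝ) = 0 := by push_cast; ring
      have e2 : (n : ℝ) + 1 - n = 1 := by ring
      rw [e1, e2, h0, h1, hc, zpow_add_one]
      rfl
    · have hfl : ⌊t⌋ = n := Int.floor_eq_iff.2 ⟨ht.1, h⟩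
      simp only [hf]
      rw [hfl]
  have hcont : Continuous f := by
    have hlf : LocallyFinite (fun n : ℤ => Icc (n : ℝ) (n + 1)) :=
      locallyFinite_Icc_of_tendsto tendsto_intCast_atTop_atTop
        (tendsto_atBot_add_const_right _ _ (tendsto_intCast_atBot_iff.2 tendsto_id))
    refine hlf.continuous ?_ (fun n => isClosed_Icc) fun n => ?_
    · refine eq_univ_of_forall fun t => ?_
      rw [mem_iUnion]
      exact ⟨⌊t⌋, Int.floor_le t, (Int.lt_floor_add_one t).le⟩
    · have h2 : Continuous fun t : ℝ => (F ^ n) (c' (t - n)) :=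
        (F ^ n).continuous.comp (hc'c.comp (continuous_id.sub continuous_const))
      exact h2.continuousOn.congr (key n)
  refine ⟨⟨f, hcont⟩, fun t => ?_, fun t => ?_⟩
  · change f (t + 1) = F (f t)
    simp only [hf]
    rw [Int.floor_add_one, add_comm ⌊t⌋ 1, zpow_one_add]
    have e : t + 1 - ((1 + ⌊t⌋ : ℤ) : ℝ) = t - ⌊t⌋ := by push_cast; ring
    rw [e]
    rfl
  · refine ⟨⌊t⌋, ⟨t - ⌊t⌋, ?_, ?_⟩, Int.floor_le t, Int.lt_floor_add_one t, ?_⟩
    · linarith [Int.floor_le t]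
    · linarith [Int.lt_floor_add_one t]
    · change f t = _
      simp only [hf]
      congr 1
      rw [hc', IccExtend_of_mem]

/-! ### Powers of a Moebius transformation fixing infinity -/

section upper
variable {A : SL(2, ℝ)}

theorem upper_re (hA : A 1 0 = 0) (z : ℍ) : (A • z).re = A 0 0 ^ 2 * z.re + A 0 0 * A 0 1 ∧
    (A • z).im = A 0 0 ^ 2 * z.im := by
  have hdet := A.det_coe
  rw [Matrix.det_fin_two, hA] at hdet
  obtain ⟨e1, e2⟩ := smul_eqs A z
  rw [hA] at e1 e2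
  have hd : A 0 0 * A 1 1 = 1 := by linarith
  constructor
  · have : (A • z).re * (A 0 0 * A 1 1) = A 0 0 * (A 0 0 * z.re + A 0 1) := by
      rw [← e1]; ring
    rw [hd, mul_one] at this
    rw [this]; ring
  · have : (A • z).im * (A 0 0 * A 1 1) = A 0 0 * (A 0 0 * z.im) := by
      rw [← e2]; ring
    rw [hd, mul_one] at this
    rw [this]; ring

theorem upper_pow_im (hA : A 1 0 = 0) (n : ℕ) (z : ℍ) :
    (A ^ n • z).im = (A 0 0 ^ 2) ^ n * z.im := by
  induction n with
  | zero => simp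
  | succ n ih =>
    rw [pow_succ', mul_smul, (upper_re hA _).2, ih]
    ring

theorem upper_pow_re (hA : A 1 0 = 0) (h1 : A 0 0 ^ 2 = 1) (n : ℕ) (z : ℍ) :
    (A ^ n • z).re = z.re + n * (A 0 0 * A 0 1) := by
  induction n with
  | zero => simp
  | succ n ih =>
    rw [pow_succ', mul_smul, (upper_re hA _).1, ih, h1]
    push_cast
    ring

/-- the powers of `A` leave every compact set -/
theorem upper_big (hA : A 1 0 = 0) (h1 : 1 ≤ |A 0 0|) (hne : mh A ≠ 1) (L : Set ℍ)
    (hL : IsCompact L) (C : ℝ) :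
    ∃ N : ℕ, ∀ n, N ≤ n → ∀ z ∈ L, C < (A ^ n • z).re ^ 2 + (A ^ n • z).im ^ 2 := by
  have hsq : 1 ≤ A 0 0 ^ 2 := by
    rw [← sq_abs]
    nlinarith
  rcases eq_or_lt_of_le hsq with h | h
  · -- parabolic
    have hb : A 0 0 * A 0 1 ≠ 0 := by
      intro hb
      apply hne
      have h00 : A 0 0 ≠ 0 := by
        intro h0
        rw [h0] at h
        norm_num at h
      have h01 : A 0 1 = 0 := by
        rcases mul_eq_zero.1 hb with h2 | h2
        · exact absurd h2 h00
        · exact h2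
      ext1 z
      change A • z = z
      apply UpperHalfPlane.ext
      obtain ⟨e1, e2⟩ := upper_re hA z
      rw [← h, one_mul, hb, add_zero] at e1
      rw [← h, one_mul] at e2
      exact Complex.ext e1 e2
    obtain ⟨B, hB⟩ : ∃ B : ℝ, ∀ z ∈ L, |z.re| ≤ B := by
      obtain ⟨B, hB⟩ := (hL.image (f := fun z : ℍ => |z.re|)
        (continuous_abs.comp UpperHalfPlane.continuous_re)).bddAbove
      exact ⟨B, fun z hz => hB (mem_image_of_mem _ hz)⟩
    obtain ⟨N, hN⟩ := exists_nat_gt ((|B| + |C| + 1) / |A 0 0 * A 0 1|)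
    refine ⟨N, fun n hn z hz => ?_⟩
    rw [upper_pow_re hA h.symm]
    have hpos : 0 < |A 0 0 * A 0 1| := abs_pos.2 hb
    have h2 : |B| + |C| + 1 < n * |A 0 0 * A 0 1| := by
      rw [div_lt_iff₀ hpos] at hN
      have : (N : ℝ) * |A 0 0 * A 0 1| ≤ n * |A 0 0 * A 0 1| :=
        mul_le_mul_of_nonneg_right (by exact_mod_cast hn) hpos.le
      linarith
    have h3 : |(n : ℝ) * (A 0 0 * A 0 1)| = n * |A 0 0 * A 0 1| := by
      rw [abs_mul, Nat.abs_cast]
    have h4 : |C| + 1 < |z.re + n * (A 0 0 * A 0 1)| := by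
      have h5 := abs_sub_abs_le_abs_sub ((n : ℝ) * (A 0 0 * A 0 1)) (-z.re)
      rw [abs_neg, h3] at h5
      have h6 : (n : ℝ) * (A 0 0 * A 0 1) - -z.re = z.re + n * (A 0 0 * A 0 1) := by ring
      rw [h6] at h5
      have h7 := hB z hz
      have h8 := le_abs_self B
      linarith
    have h9 : (|C| + 1) ^ 2 < (z.re + n * (A 0 0 * A 0 1)) ^ 2 := by
      rw [← sq_abs (z.re + n * (A 0 0 * A 0 1))]
      have := abs_nonneg C
      nlinarith
    have h10 : C ≤ (|C| + 1) ^ 2 := by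
      have := abs_nonneg C
      have := le_abs_self C
      nlinarith
    have h11 := sq_nonneg (A ^ n • z).im
    linarith
  · -- hyperbolic
    obtain ⟨ε, hε, hεL⟩ : ∃ ε : ℝ, 0 < ε ∧ ∀ z ∈ L, ε ≤ z.im := by
      rcases L.eq_empty_or_nonempty with hE | hne'
      · exact ⟨1, one_pos, fun z hz => by rw [hE] at hz; exact absurd hz (notMem_empty z)⟩
      · obtain ⟨z0, hz0, hmin⟩ := hL.exists_isMinOn hne' UpperHalfPlane.continuous_im.continuousOn
        exact ⟨z0.im, z0.im_pos, fun z hz => hmin hz⟩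
    obtain ⟨N, hN⟩ := pow_unbounded_of_one_lt ((|C| + 1) / ε) h
    refine ⟨N, fun n hn z hz => ?_⟩
    rw [upper_pow_im hA]
    have h2 : (A 0 0 ^ 2) ^ N ≤ (A 0 0 ^ 2) ^ n := pow_le_pow_right₀ hsq hn
    have h3 : |C| + 1 < (A 0 0 ^ 2) ^ n * z.im := by
      rw [div_lt_iff₀ hε] at hN
      have h4 : 0 < (A 0 0 ^ 2) ^ n := pow_pos (by linarith) n
      have h5 := hεL z hz
      nlinarith [mul_le_mul_of_nonneg_left h5 h4.le, mul_le_mul_of_nonneg_right h2 hε.le]
    have h9 : (|C| + 1) ^ 2 < ((A 0 0 ^ 2) ^ n * z.im) ^ 2 := by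
      have := abs_nonneg C
      nlinarith
    have h10 : C ≤ (|C| + 1) ^ 2 := by
      have := abs_nonneg C
      have := le_abs_self C
      nlinarith
    have h11 := sq_nonneg (A ^ n • z).re
    linarith

end upper

/-! ### The attracting end decides the side -/

/-- a matrix with first column `v` -/
theorem exists_col (v : ℝ × ℝ) (hv : v ≠ 0) : ∃ h : SL(2, ℝ), h 0 0 = v.1 ∧ h 1 0 = v.2 := by
  have hpos : 0 < v.1 ^ 2 + v.2 ^ 2 := by
    rcases ne_or_eq v.1 0 with h | h
    · positivity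
    · have : v.2 ≠ 0 := by
        intro h2
        exact hv (Prod.ext h h2)
      positivity
  refine ⟨⟨!![v.1, -v.2 / (v.1 ^ 2 + v.2 ^ 2); v.2, v.1 / (v.1 ^ 2 + v.2 ^ 2)], ?_⟩, ?_, ?_⟩
  · rw [Matrix.det_fin_two_of]
    field_simp
    ring
  · rfl
  · rfl

/-- the powers of `a` bring a compact set to the side of the attracting end -/
theorem ev_side (a g : SL(2, ℝ)) (v : ℝ × ℝ) (ha : mh a ≠ 1) (hv : Att a v) (hq : qf g v ≠ 0)
    (L : Set ℍ) (hL : IsCompact L) :
    ∃ N : ℕ, ∀ n, N ≤ n → ∀ z ∈ L, 0 < qf g v * sf g (a ^ n • z) := by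
  obtain ⟨hv0, μ, hμ, hv1, hv2⟩ := hv
  obtain ⟨h, h00, h10⟩ := exists_col v hv0
  have hdet := h.det_coe
  rw [Matrix.det_fin_two] at hdet
  set A : SL(2, ℝ) := h⁻¹ * a * h with hA
  set G : SL(2, ℝ) := h⁻¹ * g * h with hG
  have hA10 : A 1 0 = 0 := by
    simp only [hA, Matrix.SpecialLinearGroup.coe_mul, Matrix.SpecialLinearGroup.coe_inv,
      Matrix.adjugate_fin_two, Matrix.mul_apply, Fin.sum_univ_two, Matrix.of_apply,
      Matrix.cons_val', Matrix.cons_val_zero, Matrix.cons_val_one, Matrix.cons_val_fin_one]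
    rw [h00, h10]
    linear_combination v.1 * hv2 - v.2 * hv1
  have hA00 : A 0 0 = μ := by
    simp only [hA, Matrix.SpecialLinearGroup.coe_mul, Matrix.SpecialLinearGroup.coe_inv,
      Matrix.adjugate_fin_two, Matrix.mul_apply, Fin.sum_univ_two, Matrix.of_apply,
      Matrix.cons_val', Matrix.cons_val_zero, Matrix.cons_val_one, Matrix.cons_val_fin_one]
    rw [h00, h10] at *
    linear_combination (h 1 1) * hv1 - (h 0 1) * hv2 + μ * hdet
  have hAne : mh A ≠ 1 := by
    intro h1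
    apply ha
    have : a = h * A * h⁻¹ := by rw [hA]; group
    rw [this, map_mul, map_mul, h1, mul_one, ← map_mul, mul_inv_cancel, map_one]
  have hgG : h * G * h⁻¹ = g := by rw [hG]; group
  have hqG : qf g v = G 1 0 := by
    have := qf_smul h G (1, 0)
    rw [hgG] at this
    simp only [mul_one, mul_zero, add_zero] at this
    rw [h00, h10] at this
    have e : qf G (1, 0) = G 1 0 := by simp [qf]
    rw [e] at this
    exact this
  rw [hqG] at hq
  set L' : Set ℍ := (fun z : ℍ => h⁻¹ • z) '' L with hL'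
  have hL'c : IsCompact L' := hL.image (mh h⁻¹).continuous
  obtain ⟨N, hN⟩ := upper_big hA10 (by rw [hA00]; exact hμ) hAne L' hL'c
    (((G 1 1 - G 0 0) ^ 2 + 2 * G 1 0 * G 0 1) / G 1 0 ^ 2)
  refine ⟨N, fun n hn z hz => ?_⟩
  have h1 := hN n hn (h⁻¹ • z) (mem_image_of_mem _ hz)
  have hAn : A ^ n • (h⁻¹ • z) = h⁻¹ • (a ^ n • z) := by
    have : A ^ n = h⁻¹ * a ^ n * h := by
      rw [hA]
      have e := conj_pow (i := n) (a := h⁻¹) (b := a)
      rw [inv_inv] at e
      exact e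
    rw [this, ← mul_smul, ← mul_smul]
    congr 1
    group
  rw [hAn] at h1
  obtain ⟨t, ht, e⟩ := sf_smul_pos h G (h⁻¹ • (a ^ n • z))
  rw [hgG, smul_inv_smul] at e
  rw [hqG, e]
  set w : ℍ := h⁻¹ • (a ^ n • z) with hw
  have hp : 0 < G 1 0 ^ 2 := by positivity
  rw [div_lt_iff₀ hp] at h1
  have h2 : 0 < G 1 0 * sf G w := by
    simp only [sf]
    nlinarith [sq_nonneg (G 1 0 * w.re + (G 1 1 - G 0 0)), sq_nonneg (G 1 0 * w.im)]
  calc 0 < t * (G 1 0 * sf G w) := mul_pos ht h2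
    _ = G 1 0 * (t * sf G w) := by ring

/-- both sides of the axis are nonempty -/
theorem exists_neg (g : SL(2, ℝ)) (hg : 2 < |g 0 0 + g 1 1|) (s : ℝ) (hs : s ≠ 0) :
    ∃ z : ℍ, s * sf g z < 0 := by
  have hdet := g.det_coe
  rw [Matrix.det_fin_two] at hdet
  -- the discriminant
  have hdisc : 0 < (g 1 1 - g 0 0) ^ 2 + 4 * g 1 0 * g 0 1 := by
    have h1 : 4 < (g 0 0 + g 1 1) ^ 2 := by
      rw [← sq_abs]
      nlinarith
    nlinarith
  have key : ∀ p q r : ℝ, 0 < q ^ 2 + 4 * p * r →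
      ∃ x y : ℝ, 0 < y ∧ p * (x ^ 2 + y ^ 2) + q * x - r < 0 := by
    intro p q r hd
    rcases lt_trichotomy p 0 with hp | hp | hp
    · refine ⟨0, 1 + |r| / (-p), ?_, ?_⟩
      · have : 0 ≤ |r| / (-p) := div_nonneg (abs_nonneg r) (by linarith)
        linarith
      · have h1 : |r| / (-p) * (-p) = |r| := div_mul_cancel₀ _ (by linarith)
        have h2 : 0 ≤ |r| / (-p) := div_nonneg (abs_nonneg r) (by linarith)
        have h3 := neg_abs_le r
        generalize |r| / (-p) = u at h1 h2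
        have h4 : p * (0 ^ 2 + (1 + u) ^ 2) + q * 0 - r = p - 2 * |r| + p * u ^ 2 - r := by
          rw [← h1]; ring
        rw [h4]
        have h5 : p * u ^ 2 ≤ 0 := mul_nonpos_of_nonpos_of_nonneg hp.le (sq_nonneg u)
        have h6 := abs_nonneg r
        linarith
    · subst hp
      have hq : q ≠ 0 := by
        intro h0
        rw [h0] at hd
        norm_num at hd
      refine ⟨(r - 1) / q, 1, one_pos, ?_⟩
      rw [mul_div_cancel₀ _ hq]
      linarith
    · refine ⟨-q / (2 * p), Real.sqrt ((q ^ 2 + 4 * p * r) / (8 * p ^ 2)),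
        Real.sqrt_pos.2 (by positivity), ?_⟩
      rw [Real.sq_sqrt (by positivity)]
      have : p * ((-q / (2 * p)) ^ 2 + (q ^ 2 + 4 * p * r) / (8 * p ^ 2)) + q * (-q / (2 * p)) - r =
          -((q ^ 2 + 4 * p * r) / (8 * p)) := by
        field_simp
        ring
      rw [this]
      have : 0 < (q ^ 2 + 4 * p * r) / (8 * p) := by positivity
      linarith
  rcases lt_or_gt_of_ne hs with h | h
  · obtain ⟨x, y, hy, hxy⟩ := key (-g 1 0) (-(g 1 1 - g 0 0)) (-g 0 1) (by nlinarith)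
    refine ⟨⟨⟨x, y⟩, hy⟩, ?_⟩
    have : 0 < sf g ⟨⟨x, y⟩, hy⟩ := by
      simp only [sf]
      change 0 < g 1 0 * (x ^ 2 + y ^ 2) + (g 1 1 - g 0 0) * x - g 0 1
      nlinarith
    nlinarith
  · obtain ⟨x, y, hy, hxy⟩ := key (g 1 0) (g 1 1 - g 0 0) (g 0 1) hdisc
    refine ⟨⟨⟨x, y⟩, hy⟩, ?_⟩
    have : sf g ⟨⟨x, y⟩, hy⟩ < 0 := hxy
    nlinarith

/-- powers of `g` preserve the sides of its axis -/
theorem sf_zpow (g : SL(2, ℝ)) (n : ℤ) (z : ℍ) :
    ∃ t : ℝ, 0 < t ∧ sf g (((mh g) ^ n) z) = t * sf g z := by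
  obtain ⟨t, ht, e⟩ := sf_smul_pos (g ^ n) g z
  refine ⟨t, ht, ?_⟩
  have h1 : g ^ n * g * (g ^ n)⁻¹ = g := by
    rw [mul_inv_eq_iff_eq_mul]
    exact (Commute.zpow_left (Commute.refl g) n)
  rw [h1] at e
  rw [← map_zpow]
  exact e

/-- the ray -/
theorem ray (hSEG : GoalSEG) (g a : SL(2, ℝ)) (v : ℝ × ℝ) (ha : mh a ≠ 1) (hv : Att a v)
    (hq : qf g v ≠ 0) : ∃ (σ : C(ℝ, ℍ)) (N : ℕ), (∀ t, σ (t + 1) = mh a (σ t)) ∧
      ∀ t : ℝ, (N : ℝ) ≤ t → 0 < qf g v * sf g (σ t) := by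
  obtain ⟨c, c0, c1, -⟩ := hSEG UpperHalfPlane.I (a • UpperHalfPlane.I)
  obtain ⟨σ, hσ, hσ'⟩ := per_ext (mh a) c (by rw [c0, c1]; rfl)
  obtain ⟨N, hN⟩ := ev_side a g v ha hv hq (Set.range c) (isCompact_range c.continuous)
  refine ⟨σ, N, hσ, fun t ht => ?_⟩
  obtain ⟨n, s, h1, h2, h3⟩ := hσ' t
  have hn : (N : ℤ) ≤ n := by
    have h4 : ((N : ℤ) : ℝ) < ((n + 1 : ℤ) : ℝ) := by
      push_cast
      linarith
    have := Int.cast_lt.1 h4
    omega
  obtain ⟨m, rfl⟩ : ∃ m : ℕ, n = m := ⟨n.toNat, by omega⟩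
  rw [h3, zpow_natCast, ← map_pow]
  exact hN m (by omega) (c s) (mem_range_self s)

theorem goalCR2 (hSEG : GoalSEG) : GoalCR2 := by
  intro g a b v w hg ha hb hv hw hqq hSp
  have hqv : qf g v ≠ 0 := by
    intro h
    rw [h, zero_mul] at hqq
    exact lt_irrefl _ hqq
  have hqw : qf g w ≠ 0 := by
    intro h
    rw [h, mul_zero] at hqq
    exact lt_irrefl _ hqq
  -- the sign of `w`
  have hw' : ∀ r : ℝ, 0 < qf g w * r → 0 < qf g v * r := by
    intro r hr
    have h1 : 0 < (qf g v * r) * (qf g w) ^ 2 := by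
      have := mul_pos hqq hr
      nlinarith
    by_contra h2
    exact absurd h1 (not_lt.2 (mul_nonpos_of_nonpos_of_nonneg (not_lt.1 h2) (sq_nonneg _)))
  -- the two rays
  obtain ⟨σa, Na, hσa, hUa⟩ := ray hSEG g a v ha hv hqv
  obtain ⟨σb, Nb, hσb, hUb'⟩ := ray hSEG g b w hb hw hqw
  have hUb : ∀ t : ℝ, (Nb : ℝ) ≤ t → 0 < qf g v * sf g (σb t) := fun t ht => hw' _ (hUb' t ht)
  -- the curve on the other side
  obtain ⟨z1, hz1⟩ := exists_neg g hg (qf g v) hqv
  obtain ⟨e, e0, e1, he⟩ := hSEG z1 (g • z1)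
  obtain ⟨η, hη, hη'⟩ := per_ext (mh g) e (by rw [e0, e1]; rfl)
  have hz1' : sf g z1 ≠ 0 := by
    intro h
    rw [h, mul_zero] at hz1
    exact lt_irrefl _ hz1
  have heneg : ∀ s, qf g v * sf g (e s) < 0 := by
    intro s
    have h1 : 0 < sf g z1 * sf g (g • z1) := by
      obtain ⟨t, ht, h2⟩ := sf_zpow g 1 z1
      rw [zpow_one] at h2
      change sf g (g • z1) = _ at h2
      rw [h2]
      have := sq_pos_of_ne_zero hz1'
      nlinarith [mul_pos ht this]
    have h2 := he g h1 s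
    by_contra h3
    have h4 : 0 ≤ (qf g v * sf g (e s)) * (sf g z1) ^ 2 :=
      mul_nonneg (not_lt.1 h3) (sq_nonneg _)
    have h5 : (qf g v * sf g z1) * (sf g z1 * sf g (e s)) < 0 := mul_neg_of_neg_of_pos hz1 h2
    nlinarith
  have hηneg : ∀ t, qf g v * sf g (η t) < 0 := by
    intro t
    obtain ⟨n, s, -, -, h3⟩ := hη' t
    obtain ⟨r, hr, h4⟩ := sf_zpow g n (e s)
    rw [h3, h4]
    have := mul_neg_of_pos_of_neg hr (heneg s)
    linarith
  -- the middle part
  set N : ℝ := max (max Na Nb) 1 with hN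
  have hNa : (Na : ℝ) ≤ N := le_max_of_le_left (le_max_left _ _)
  have hNb : (Nb : ℝ) ≤ N := le_max_of_le_left (le_max_right _ _)
  have hN1 : (1 : ℝ) ≤ N := le_max_right _ _
  obtain ⟨m, m0, m1, hm⟩ := hSEG (σb N) (σa N)
  have hmU : ∀ s, 0 < qf g v * sf g (m s) := by
    intro s
    have h1 := hUb N hNb
    have h2 := hUa N hNa
    have hne : sf g (σb N) ≠ 0 := by
      intro h
      rw [h, mul_zero] at h1
      exact lt_irrefl _ h1
    have h3 : 0 < sf g (σb N) * sf g (σa N) := by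
      have h4 : 0 < (qf g v) ^ 2 * (sf g (σb N) * sf g (σa N)) := by
        have := mul_pos h1 h2
        nlinarith
      by_contra h5
      exact absurd h4 (not_lt.2 (mul_nonpos_of_nonneg_of_nonpos (sq_nonneg _) (not_lt.1 h5)))
    have h4 := hm g h3 s
    have h5 : 0 < (qf g v * sf g (m s)) * (sf g (σb N)) ^ 2 := by
      have := mul_pos h1 h4
      nlinarith
    by_contra h6
    exact absurd h5 (not_lt.2 (mul_nonpos_of_nonpos_of_nonneg (not_lt.1 h6) (sq_nonneg _)))
  set m' : ℝ → ℍ := IccExtend zero_le_one m with hm'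
  have hm'c : Continuous m' := m.continuous.Icc_extend'
  have hm'0 : m' 0 = σb N := by
    rw [hm', IccExtend_left, ← m0]
    rfl
  have hm'1 : m' 1 = σa N := by
    rw [hm', IccExtend_right, ← m1]
    rfl
  have hm'U : ∀ s, 0 < qf g v * sf g (m' s) := fun s => hmU _
  -- the curve
  set f : ℝ → ℍ := fun t => if t ≤ -N then σb (-t) else
    (if t ≤ N then m' ((t + N) / (2 * N)) else σa t) with hf
  have hfc : Continuous f := by
    refine Continuous.if_le (σb.continuous.comp continuous_neg) ?_ continuous_id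
      continuous_const ?_
    · refine Continuous.if_le (hm'c.comp ((continuous_id.add continuous_const).div_const _))
        σa.continuous continuous_id continuous_const ?_
      intro t ht
      rw [ht]
      have : (N + N) / (2 * N) = 1 := by
        field_simp
        ring
      rw [this, hm'1]
    · intro t ht
      rw [ht, if_pos (by linarith)]
      have : (-N + N) / (2 * N) = 0 := by simp
      rw [this, hm'0, neg_neg]
  have hfa : ∀ t, N ≤ t → f t = σa t := by
    intro t ht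
    simp only [hf]
    rw [if_neg (by linarith)]
    rcases eq_or_lt_of_le ht with h | h
    · rw [if_pos h.symm.le, ← h]
      have : (N + N) / (2 * N) = 1 := by
        field_simp
        ring
      rw [this, hm'1]
    · rw [if_neg (by linarith)]
  have hfb : ∀ t, t ≤ -N → f t = σb (-t) := by
    intro t ht
    simp only [hf]
    rw [if_pos ht]
  have hfU : ∀ t, 0 < qf g v * sf g (f t) := by
    intro t
    simp only [hf]
    split_ifs with h1 h2
    · exact hUb _ (by linarith)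
    · exact hm'U _
    · exact hUa _ (by linarith)
  obtain ⟨s, t, hst⟩ := hSp ⟨f, hfc⟩ η N (fun t ht => by
    change f (t + 1) = mh a (f t)
    rw [hfa t ht, hfa (t + 1) (by linarith), hσa]) (fun t ht => by
    change f (t - 1) = mh b (f t)
    rw [hfb t ht, hfb (t - 1) (by linarith), ← hσb]
    congr 1
    ring) hη
  change f s = η t at hst
  have h1 := hfU s
  rw [hst] at h1
  exact lt_asymm h1 (hηneg t)

end Pool.Agent.Helper13.LN
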